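import Pool.Agent.W896.RK.Disc

/-!
# The discrepancy of a trilinear form
-/

set_option autoImplicit false

namespace Pool.Agent.J6H29.FE

open Finset Pool.Agent.W896.RK

variable {m n : ℕ}

/-- A character sum is not negative. -/
theorem sum_bil_nonneg (A : Fin m → Fin m → Prop) (w : Fin m → Bool) :
    0 ≤ ∑ u : Fin m → Bool, bil A u w := by
  classical
  obtain ⟨S, hS⟩ : ∃ S : ℝ, S = ∑ u : Fin m → Bool, bil A u w := ⟨_, rfl⟩
  have h1 : S * S = 2 ^ m * S := by
    calc S * S = ∑ u : Fin m → Bool, ∑ u' : Fin m → Bool, bil A u' w * bil A u w := by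
          rw [hS, sum_mul_sum]
          exact sum_congr rfl (fun u _ => sum_congr rfl (fun u' _ => mul_comm _ _))
      _ = ∑ _u : Fin m → Bool, S := by
          refine sum_congr rfl (fun u _ => ?_)
          rw [hS, ← Equiv.sum_comp (xorEquiv u) (fun u' => bil A u' w)]
          refine sum_congr rfl (fun u' _ => ?_)
          rw [← bil_xor_left]
          rfl
      _ = _ := by simp
  rw [← hS]
  by_contra hcon
  push Not at hcon
  nlinarith [mul_pos_of_neg_of_neg hcon hcon, pow_pos (two_pos : (0 : ℝ) < 2) m]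

theorem bil_zero_left (A : Fin m → Fin m → Prop) {u w : Fin m → Bool}
    (h : ∀ s, u s = false) : bil A u w = 1 := by
  unfold bil
  refine prod_eq_one (fun i _ => prod_eq_one (fun j _ => ?_))
  rw [h, sg_false_left, ite_self]

theorem bil_zero_right (A : Fin m → Fin m → Prop) {u w : Fin m → Bool}
    (h : ∀ s, w s = false) : bil A u w = 1 := by
  unfold bil
  refine prod_eq_one (fun i _ => prod_eq_one (fun j _ => ?_))
  rw [h, sg_false_right, ite_self]

/-- The matrix of the bilinear form. -/
def mat {V : Type} (α : Fin n → Fin n → V) (z : V → Bool) : Fin n → Fin n → Prop :=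
  fun i j => z (α i j) = true

/-- The average over the coefficients. -/
theorem sum_bil_mat {V : Type} [Fintype V] [DecidableEq V] {α : Fin n → Fin n → V}
    (hα : ∀ i j i' j', α i j = α i' j' → i.val + j.val = i'.val + j'.val)
    {e f : Fin m → Fin n} (he : Function.Injective e) (hf : Function.Injective f)
    {u w : Fin m → Bool} (hu : ∃ s, u s = true) (hw : ∃ s, w s = true) :
    ∑ z : V → Bool, bil (fun s s' => mat α z (e s) (f s')) u w = 0 := by
  classical
  obtain ⟨s₀, hs1, hs2⟩ : ∃ s₀, u s₀ = true ∧ ∀ s, u s = true → e s ≤ e s₀ := by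
    have hex : (univ.filter (fun s => u s = true)).Nonempty := by
      obtain ⟨s, hs⟩ := hu; exact ⟨s, by simp [hs]⟩
    obtain ⟨s₀, h1, h2⟩ := exists_max_image _ e hex
    exact ⟨s₀, (mem_filter.1 h1).2, fun s hs => h2 s (mem_filter.2 ⟨mem_univ _, hs⟩)⟩
  obtain ⟨t₀, ht1, ht2⟩ : ∃ t₀, w t₀ = true ∧ ∀ s, w s = true → f s ≤ f t₀ := by
    have hex : (univ.filter (fun s => w s = true)).Nonempty := by
      obtain ⟨s, hs⟩ := hw; exact ⟨s, by simp [hs]⟩
    obtain ⟨s₀, h1, h2⟩ := exists_max_image _ f hex
    exact ⟨s₀, (mem_filter.1 h1).2, fun s hs => h2 s (mem_filter.2 ⟨mem_univ _, hs⟩)⟩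
  obtain ⟨v₀, hv₀⟩ : ∃ v₀, v₀ = α (e s₀) (f t₀) := ⟨_, rfl⟩
  obtain ⟨δ, hδ⟩ : ∃ δ : V → Bool, δ = fun v => decide (v = v₀) := ⟨_, rfl⟩
  have key : ∀ z : V → Bool, bil (fun s s' => mat α (xorEquiv δ z) (e s) (f s')) u w =
      - bil (fun s s' => mat α z (e s) (f s')) u w := by
    intro z
    unfold bil
    rw [← Fintype.prod_prod_type', ← Fintype.prod_prod_type']
    rw [← mul_prod_erase univ _ (mem_univ (s₀, t₀)), ← mul_prod_erase univ _ (mem_univ (s₀, t₀)),
      ← neg_mul]
    congr 1
    · simp only [mat, xorEquiv, Equiv.coe_fn_mk, hs1, ht1, ← hv₀, hδ, sg]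
      cases z v₀ <;> simp
    · refine prod_congr rfl (fun p hp => ?_)
      obtain ⟨s, t⟩ := p
      have hne := (mem_erase.1 hp).1
      simp only
      by_cases h1 : α (e s) (f t) = v₀
      · have h2 := hα _ _ _ _ (h1.trans hv₀)
        have h3 : u s = false ∨ w t = false := by
          by_contra hcon
          push Not at hcon
          have h4 : u s = true := by simpa using hcon.1
          have h5 : w t = true := by simpa using hcon.2
          have h6 : (e s).val ≤ (e s₀).val := hs2 s h4
          have h7 : (f t).val ≤ (f t₀).val := ht2 t h5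
          apply hne
          rw [Prod.mk.injEq]
          exact ⟨he (Fin.ext (by omega)), hf (Fin.ext (by omega))⟩
        rcases h3 with h3 | h3
        · rw [h3, sg_false_left, ite_self, ite_self]
        · rw [h3, sg_false_right, ite_self, ite_self]
      · have h2 : mat α (xorEquiv δ z) (e s) (f t) = mat α z (e s) (f t) := by
          simp only [mat, xorEquiv, Equiv.coe_fn_mk, hδ, h1, decide_false, Bool.xor_false]
        simp only [h2]
  have h1 := Equiv.sum_comp (xorEquiv δ)
    (fun z : V → Bool => bil (fun s s' => mat α z (e s) (f s')) u w)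
  simp_rw [key] at h1
  rw [sum_neg_distrib] at h1
  linarith

/-- The sum over the coefficients and the arguments. -/
theorem sum_sum_bil_mat {V : Type} [Fintype V] [DecidableEq V] {α : Fin n → Fin n → V}
    (hα : ∀ i j i' j', α i j = α i' j' → i.val + j.val = i'.val + j'.val)
    {e f : Fin m → Fin n} (he : Function.Injective e) (hf : Function.Injective f) :
    ∑ z : V → Bool, ∑ w : Fin m → Bool, ∑ u : Fin m → Bool,
      bil (fun s s' => mat α z (e s) (f s')) u w ≤ 2 * 2 ^ m * 2 ^ Fintype.card V := by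
  classical
  have h0 : ∑ z : V → Bool, ∑ w : Fin m → Bool, ∑ u : Fin m → Bool,
      bil (fun s s' => mat α z (e s) (f s')) u w =
      ∑ w : Fin m → Bool, ∑ u : Fin m → Bool, ∑ z : V → Bool,
      bil (fun s s' => mat α z (e s) (f s')) u w := by
    rw [sum_comm]
    exact sum_congr rfl (fun w _ => sum_comm)
  rw [h0]
  obtain ⟨C, hC⟩ : ∃ C : ℝ, C = 2 ^ Fintype.card V := ⟨_, rfl⟩
  have hC0 : 0 ≤ C := by rw [hC]; positivity
  have h1 : ∀ w u : Fin m → Bool, ∑ z : V → Bool,
      bil (fun s s' => mat α z (e s) (f s')) u w ≤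
      (if w = (fun _ => false) then C else 0) + (if u = (fun _ => false) then C else 0) := by
    intro w u
    have hone : ∑ _z : V → Bool, (1 : ℝ) = C := by simp [hC]
    by_cases hw : w = (fun _ => false)
    · rw [if_pos hw]
      have : ∑ z : V → Bool, bil (fun s s' => mat α z (e s) (f s')) u w = C := by
        rw [← hone]
        exact sum_congr rfl (fun z _ => bil_zero_right _ (fun s => by rw [hw]))
      rw [this]
      split_ifs <;> linarith
    · by_cases hu : u = (fun _ => false)
      · rw [if_neg hw, if_pos hu]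
        have : ∑ z : V → Bool, bil (fun s s' => mat α z (e s) (f s')) u w = C := by
          rw [← hone]
          exact sum_congr rfl (fun z _ => bil_zero_left _ (fun s => by rw [hu]))
        rw [this]; linarith
      · rw [if_neg hw, if_neg hu, sum_bil_mat hα he hf]
        · simp
        · by_contra hcon
          push Not at hcon
          exact hu (funext fun s => by simpa using hcon s)
        · by_contra hcon
          push Not at hcon
          exact hw (funext fun s => by simpa using hcon s)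
  calc _ ≤ ∑ w : Fin m → Bool, ∑ u : Fin m → Bool,
        ((if w = (fun _ => false) then C else 0) + (if u = (fun _ => false) then C else 0)) :=
        sum_le_sum (fun w _ => sum_le_sum (fun u _ => h1 w u))
    _ = 2 * 2 ^ m * C := by
        simp only [sum_add_distrib, sum_const, card_univ, Fintype.card_fun, Fintype.card_fin,
          Fintype.card_bool, nsmul_eq_mul, sum_ite_eq', mem_univ, if_true]
        rw [← mul_sum]
        simp only [sum_ite_eq', mem_univ, if_true]
        push_cast
        ring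
    _ = _ := by rw [hC]

/-- The bound for fixed coefficients. -/
theorem disc_fix (B : Fin m → Fin m → Prop) (φ ψ : (Fin m → Bool) → ℝ)
    (hφ : ∀ u, |φ u| ≤ 1) (hψ : ∀ u, |ψ u| ≤ 1) :
    (∑ u, ∑ v, φ u * ψ v * bil B u v) ^ 2 ≤
      4 ^ m * ∑ w : Fin m → Bool, ∑ u : Fin m → Bool, bil B u w := by
  classical
  have h1 : ∑ u, ∑ v, φ u * ψ v * bil B u v = ∑ u, φ u * ∑ v, ψ v * bil B u v := by
    refine sum_congr rfl (fun u _ => ?_)
    rw [mul_sum]
    exact sum_congr rfl (fun v _ => by ring)
  rw [h1]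
  have hc : (Fintype.card (Fin m → Bool) : ℝ) = 2 ^ m := by simp
  calc (∑ u, φ u * ∑ v, ψ v * bil B u v) ^ 2 ≤
      (∑ u, φ u ^ 2) * ∑ u, (∑ v, ψ v * bil B u v) ^ 2 := sum_mul_sq_le_sq_mul_sq _ _ _
    _ ≤ (2 ^ m) * ∑ u, (∑ v, ψ v * bil B u v) ^ 2 := by
        apply mul_le_mul_of_nonneg_right _ (sum_nonneg (fun _ _ => sq_nonneg _))
        calc ∑ u, φ u ^ 2 ≤ ∑ _u : Fin m → Bool, (1 : ℝ) :=
              sum_le_sum (fun u _ => by rw [← sq_abs]; exact pow_le_one₀ (abs_nonneg _) (hφ u))
          _ = 2 ^ m := by rw [sum_const, card_univ, nsmul_eq_mul, mul_one, hc]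
    _ ≤ (2 ^ m) * (2 ^ m * ∑ w : Fin m → Bool, ∑ u : Fin m → Bool, bil B u w) := by
        apply mul_le_mul_of_nonneg_left _ (by positivity)
        have h2 : ∑ u, (∑ v, ψ v * bil B u v) ^ 2 =
            ∑ v, ∑ v', ψ v * ψ v' * ∑ u, bil B u (xorEquiv v v') := by
          calc ∑ u, (∑ v, ψ v * bil B u v) ^ 2 =
              ∑ u, ∑ v, ∑ v', (ψ v * bil B u v) * (ψ v' * bil B u v') := by
                refine sum_congr rfl (fun u _ => ?_)
                rw [sq, sum_mul_sum]
            _ = ∑ v, ∑ u, ∑ v', (ψ v * bil B u v) * (ψ v' * bil B u v') := sum_comm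
            _ = ∑ v, ∑ v', ∑ u, (ψ v * bil B u v) * (ψ v' * bil B u v') :=
                sum_congr rfl (fun v _ => sum_comm)
            _ = _ := by
                refine sum_congr rfl (fun v _ => sum_congr rfl (fun v' _ => ?_))
                rw [mul_sum]
                refine sum_congr rfl (fun u _ => ?_)
                have : bil B u (xorEquiv v v') = bil B u v' * bil B u v := bil_xor_right _ _ _ _
                rw [this]; ring
        rw [h2]
        calc ∑ v, ∑ v', ψ v * ψ v' * ∑ u, bil B u (xorEquiv v v') ≤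
            ∑ v : Fin m → Bool, ∑ v' : Fin m → Bool, ∑ u, bil B u (xorEquiv v v') := by
              refine sum_le_sum (fun v _ => sum_le_sum (fun v' _ => ?_))
              have h3 := sum_bil_nonneg B (xorEquiv v v')
              have h4 : ψ v * ψ v' ≤ 1 := by
                calc ψ v * ψ v' ≤ |ψ v * ψ v'| := le_abs_self _
                  _ = |ψ v| * |ψ v'| := abs_mul _ _
                  _ ≤ 1 * 1 := mul_le_mul (hψ v) (hψ v') (abs_nonneg _) zero_le_one
                  _ = 1 := one_mul 1
              calc _ ≤ 1 * ∑ u, bil B u (xorEquiv v v') := mul_le_mul_of_nonneg_right h4 h3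
                _ = _ := one_mul _
          _ = ∑ _v : Fin m → Bool, ∑ w : Fin m → Bool, ∑ u : Fin m → Bool, bil B u w := by
              refine sum_congr rfl (fun v _ => ?_)
              exact Equiv.sum_comp (xorEquiv v) (fun w => ∑ u, bil B u w)
          _ = _ := by rw [sum_const, card_univ, nsmul_eq_mul, hc]
    _ = _ := by
        rw [← mul_assoc, ← mul_pow]; norm_num

/-- **The discrepancy of the trilinear form** for products of two functions, the first of
which does not depend on the bits `η (f s)` and the second not on the bits `ξ (e s)`. -/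
theorem tri_disc {V : Type} [Fintype V] [DecidableEq V] {α : Fin n → Fin n → V}
    {ξ η : Fin n → V}
    (hα : ∀ i j i' j', α i j = α i' j' → i.val + j.val = i'.val + j'.val)
    (hξ : Function.Injective ξ) (hη : Function.Injective η)
    (hξη : ∀ i j, ξ i ≠ η j) (hαξ : ∀ i j k, α i j ≠ ξ k) (hαη : ∀ i j k, α i j ≠ η k)
    {e f : Fin m → Fin n} (he : Function.Injective e) (hf : Function.Injective f)
    (G H : (V → Bool) → ℝ)
    (hG : ∀ z, |G z| ≤ 1) (hH : ∀ z, |H z| ≤ 1)
    (hG' : ∀ z z', (∀ v, (∀ s, η (f s) ≠ v) → z v = z' v) → G z = G z')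
    (hH' : ∀ z z', (∀ v, (∀ s, ξ (e s) ≠ v) → z v = z' v) → H z = H z') :
    (∑ z, G z * H z * bil (mat α z) (fun i => z (ξ i)) (fun j => z (η j))) ^ 2 * 2 ^ m ≤
      2 * ((2 : ℝ) ^ Fintype.card V) ^ 2 := by
  classical
  obtain ⟨F, hF⟩ : ∃ F : (V → Bool) → ℝ,
    ∀ z, F z = G z * H z * bil (mat α z) (fun i => z (ξ i)) (fun j => z (η j)) :=
    ⟨_, fun _ => rfl⟩
  obtain ⟨S, hS⟩ : ∃ S : ℝ, S = ∑ z, F z := ⟨_, rfl⟩
  have hS0 : ∑ z, G z * H z * bil (mat α z) (fun i => z (ξ i)) (fun j => z (η j)) = S := by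
    rw [hS]; simp_rw [hF]
  rw [hS0]
  have hξe : Function.Injective (fun s => ξ (e s)) := hξ.comp he
  have hηf : Function.Injective (fun s => η (f s)) := hη.comp hf
  obtain ⟨p, hp⟩ : ∃ p : (Fin m → Bool) → V → Bool, ∀ u, p u = spread (fun s => ξ (e s)) u :=
    ⟨_, fun _ => rfl⟩
  obtain ⟨q, hq⟩ : ∃ q : (Fin m → Bool) → V → Bool, ∀ u, q u = spread (fun s => η (f s)) u :=
    ⟨_, fun _ => rfl⟩
  have hp1 : ∀ u v, (∀ s, ξ (e s) ≠ v) → p u v = false := by
    intro u v hv; rw [hp]; exact spread_other u hv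
  have hq1 : ∀ u v, (∀ s, η (f s) ≠ v) → q u v = false := by
    intro u v hv; rw [hq]; exact spread_other u hv
  have hp2 : ∀ u i, p u (ξ i) = spread e u i := by
    intro u i
    rw [hp]
    by_cases h : ∃ s, e s = i
    · obtain ⟨s, rfl⟩ := h
      rw [spread_apply he, spread_apply hξe]
    · push Not at h
      rw [spread_other u h, spread_other]
      intro s hs
      exact h s (hξ hs)
  have hq2 : ∀ u i, q u (η i) = spread f u i := by
    intro u i
    rw [hq]
    by_cases h : ∃ s, f s = i
    · obtain ⟨s, rfl⟩ := h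
      rw [spread_apply hf, spread_apply hηf]
    · push Not at h
      rw [spread_other u h, spread_other]
      intro s hs
      exact h s (hη hs)
  -- averaging over the shifts
  have h1 : ∀ u v : Fin m → Bool, ∑ z : V → Bool, F (xorEquiv (q v) (xorEquiv (p u) z)) = S := by
    intro u v
    rw [hS, Equiv.sum_comp (xorEquiv (p u)) (fun z => F (xorEquiv (q v) z)),
      Equiv.sum_comp (xorEquiv (q v)) F]
  obtain ⟨K, hK⟩ : ∃ K : (V → Bool) → ℝ, ∀ z, K z = ∑ u : Fin m → Bool,
      ∑ v : Fin m → Bool, F (xorEquiv (q v) (xorEquiv (p u) z)) := ⟨_, fun _ => rfl⟩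
  have h2 : (4 : ℝ) ^ m * S = ∑ z : V → Bool, K z := by
    calc (4 : ℝ) ^ m * S = ∑ _u : Fin m → Bool, ∑ _v : Fin m → Bool, S := by
          simp only [sum_const, card_univ, Fintype.card_fun, Fintype.card_fin,
            Fintype.card_bool, nsmul_eq_mul]
          push_cast
          rw [← mul_assoc, ← mul_pow]
          norm_num
      _ = ∑ u : Fin m → Bool, ∑ v : Fin m → Bool, ∑ z : V → Bool,
          F (xorEquiv (q v) (xorEquiv (p u) z)) :=
          sum_congr rfl (fun u _ => sum_congr rfl (fun v _ => (h1 u v).symm))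
      _ = ∑ u : Fin m → Bool, ∑ z : V → Bool, ∑ v : Fin m → Bool,
          F (xorEquiv (q v) (xorEquiv (p u) z)) :=
          sum_congr rfl (fun u _ => sum_comm)
      _ = ∑ z : V → Bool, ∑ u : Fin m → Bool, ∑ v : Fin m → Bool,
          F (xorEquiv (q v) (xorEquiv (p u) z)) := sum_comm
      _ = _ := sum_congr rfl (fun z _ => (hK z).symm)
  have h3 : ∀ z : V → Bool, K z ^ 2 ≤ 4 ^ m * ∑ w : Fin m → Bool, ∑ u : Fin m → Bool,
      bil (fun s s' => mat α z (e s) (f s')) u w := by
    intro z
    have h4 : ∀ u v : Fin m → Bool, F (xorEquiv (q v) (xorEquiv (p u) z)) =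
        (bil (mat α z) (fun i => z (ξ i)) (fun j => z (η j)) * G (xorEquiv (p u) z) *
          bil (mat α z) (spread e u) (fun j => z (η j))) *
        (H (xorEquiv (q v) z) * bil (mat α z) (fun i => z (ξ i)) (spread f v)) *
        bil (fun s s' => mat α z (e s) (f s')) u v := by
      intro u v
      rw [hF]
      have a1 : G (xorEquiv (q v) (xorEquiv (p u) z)) = G (xorEquiv (p u) z) := by
        apply hG'
        intro j hj
        simp only [xorEquiv, Equiv.coe_fn_mk]
        rw [hq1 v j hj, Bool.xor_false]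
      have a2 : H (xorEquiv (q v) (xorEquiv (p u) z)) = H (xorEquiv (q v) z) := by
        apply hH'
        intro j hj
        simp only [xorEquiv, Equiv.coe_fn_mk]
        rw [hp1 u j hj, Bool.xor_false]
      have a3 : mat α (xorEquiv (q v) (xorEquiv (p u) z)) = mat α z := by
        funext i j
        simp only [mat, xorEquiv, Equiv.coe_fn_mk]
        rw [hp1 u _ (fun s hs => hαξ i j _ hs.symm), hq1 v _ (fun s hs => hαη i j _ hs.symm),
          Bool.xor_false, Bool.xor_false]
      have a4 : (fun i => (xorEquiv (q v) (xorEquiv (p u) z)) (ξ i)) =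
          (fun i => xor (z (ξ i)) (spread e u i)) := by
        funext i
        simp only [xorEquiv, Equiv.coe_fn_mk]
        rw [hq1 v _ (fun s hs => hξη _ _ hs.symm), Bool.xor_false, hp2]
      have a5 : (fun i => (xorEquiv (q v) (xorEquiv (p u) z)) (η i)) =
          (fun i => xor (z (η i)) (spread f v i)) := by
        funext i
        simp only [xorEquiv, Equiv.coe_fn_mk]
        rw [hp1 u _ (fun s hs => hξη _ _ hs), Bool.xor_false, hq2]
      rw [a1, a2, a3, a4, a5, bil_xor_left, bil_xor_right, bil_xor_right,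
        bil_spread (mat α z) he hf]
      ring
    rw [hK]
    simp_rw [h4]
    apply disc_fix
    · intro u
      rw [abs_mul, abs_mul, bil_abs, bil_abs, one_mul, mul_one]
      exact hG _
    · intro v
      rw [abs_mul, bil_abs, mul_one]
      exact hH _
  have h5 : ((4 : ℝ) ^ m * S) ^ 2 ≤
      (2 * (2 ^ Fintype.card V) ^ 2) * 8 ^ m := by
    rw [h2]
    calc (∑ z, K z) ^ 2 ≤ (Fintype.card (V → Bool) : ℝ) * ∑ z, K z ^ 2 := by
          have := sq_sum_le_card_mul_sum_sq (s := (univ : Finset (V → Bool)))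
            (f := K)
          rw [card_univ] at this
          exact this
      _ ≤ (Fintype.card (V → Bool) : ℝ) *
        ∑ z : V → Bool, 4 ^ m * ∑ w : Fin m → Bool, ∑ u : Fin m → Bool,
          bil (fun s s' => mat α z (e s) (f s')) u w := by
          apply mul_le_mul_of_nonneg_left _ (by positivity)
          exact sum_le_sum (fun z _ => h3 z)
      _ = (Fintype.card (V → Bool) : ℝ) * (4 ^ m *
        ∑ z : V → Bool, ∑ w : Fin m → Bool, ∑ u : Fin m → Bool,
          bil (fun s s' => mat α z (e s) (f s')) u w) := by rw [mul_sum (s := (univ : Finset (V → Bool))) (a := (4 : ℝ) ^ m)]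
      _ ≤ (Fintype.card (V → Bool) : ℝ) * (4 ^ m * (2 * 2 ^ m * 2 ^ Fintype.card V)) := by
          apply mul_le_mul_of_nonneg_left _ (by positivity)
          apply mul_le_mul_of_nonneg_left _ (by positivity)
          exact sum_sum_bil_mat hα he hf
      _ = _ := by
          rw [Fintype.card_fun, Fintype.card_bool]
          push_cast
          have : (8 : ℝ) ^ m = 4 ^ m * 2 ^ m := by rw [← mul_pow]; norm_num
          rw [this]; ring
  have h6 : (8 : ℝ) ^ m * (S ^ 2 * 2 ^ m) ≤
      8 ^ m * (2 * ((2 : ℝ) ^ Fintype.card V) ^ 2) := by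
    have h7 : (8 : ℝ) ^ m * (S ^ 2 * 2 ^ m) = (4 ^ m * S) ^ 2 := by
      rw [mul_pow, ← pow_mul, mul_comm m 2, pow_mul]
      calc (8 : ℝ) ^ m * (S ^ 2 * 2 ^ m) = (8 ^ m * 2 ^ m) * S ^ 2 := by ring
        _ = _ := by rw [← mul_pow]; norm_num
    rw [h7]
    calc _ ≤ _ := h5
      _ = _ := by ring
  exact le_of_mul_le_mul_left h6 (by positivity)

end Pool.Agent.J6H29.FE
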