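import Pool.Agent.W896.RK.Main
import Pool.Agent.J6H29.FE.Disc

/-!
# Circuits of small formal degree and the trilinear form
-/

set_option autoImplicit false

open Finset

namespace Pool.Agent.J6H29.FE

open Pool.Agent.W896.RK Pool.Agent.W896.HP

variable {V : Type}

theorem fill_self {ι : Type} (p : ι → V) (z : V → Bool) : fill p z (fun i => z (p i)) = z := by
  funext v
  unfold fill
  cases h : idx p v with
  | none => rfl
  | some i =>
    change z (p i) = z v
    rw [idx_some h]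

theorem fill_eq {ι : Type} {p : ι → V} (hp : Function.Injective p) {z z' : V → Bool}
    (h : ∀ v, (∀ i, p i ≠ v) → z v = z' v) : fill p z (fun i => z' (p i)) = z' := by
  funext v
  by_cases hv : ∃ i, p i = v
  · obtain ⟨i, rfl⟩ := hv
    rw [fill_apply hp]
  · push Not at hv
    rw [fill_other _ _ hv]
    exact h v hv

/-- A piece depends only on the bits in the set of its variables. -/
theorem piece_dep' {ι : Type} [Fintype ι] {U : Circ V} {p : ι → V} (hp : Function.Injective p)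
    {d : U.G → ι → ℕ} (hd : IsDeg U p d) {z z' : V → Bool} {P : Piece U} (h : P.True z)
    (h1 : ∀ v, (∀ i, p i ≠ v) → z v = z' v) (h2 : ∀ i ∈ P.vars p d, z (p i) = z' (p i)) :
    P.True z' := by
  rw [← fill_eq hp h1]
  rw [← fill_self p z] at h
  exact piece_dep hd h h2

/-- The positions of the three blocks of bits. -/
structure Pos (V : Type) (n : ℕ) where
  /-- the coefficients -/
  α : Fin n → Fin n → V
  /-- the first arguments -/
  ξ : Fin n → V
  /-- the second arguments -/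
  η : Fin n → V
  hα : ∀ i j i' j', α i j = α i' j' → i.val + j.val = i'.val + j'.val
  hξ : Function.Injective ξ
  hη : Function.Injective η
  hξη : ∀ i j, ξ i ≠ η j
  hαξ : ∀ i j k, α i j ≠ ξ k
  hαη : ∀ i j k, α i j ≠ η k

/-- The sign of the trilinear form. -/
noncomputable def Pos.chi {n : ℕ} (P : Pos V n) (z : V → Bool) : ℝ :=
  bil (mat P.α z) (fun i => z (P.ξ i)) (fun j => z (P.η j))

theorem Pos.chi_abs {n : ℕ} (P : Pos V n) (z : V → Bool) : |P.chi z| = 1 := bil_abs _ _ _

/-- From squares. -/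
theorem from_sq {x y : ℝ} {μ : ℕ} (hy : 0 ≤ y)
    (h : x ^ 2 * 2 ^ (2 * μ + 1) ≤ 2 * y ^ 2) : x * 2 ^ μ ≤ y := by
  apply le_of_sq_le_sq _ hy
  have h1 : x ^ 2 * 2 ^ (2 * μ + 1) = 2 * (x * 2 ^ μ) ^ 2 := by
    rw [mul_pow, ← pow_mul, pow_succ, mul_comm μ 2]; ring
  rw [h1] at h
  linarith

/-- The discrepancy of the trilinear form for large sets of indices. -/
theorem disc_sets [Fintype V] [DecidableEq V] {n n' μ : ℕ} (P : Pos V n)
    {e₀ f₀ : Fin n' → Fin n} (he₀ : Function.Injective e₀) (hf₀ : Function.Injective f₀)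
    (R B : Finset (Fin n')) (hR : 2 * μ + 1 ≤ R.card) (hB : 2 * μ + 1 ≤ B.card)
    (G H : (V → Bool) → ℝ) (hG : ∀ z, |G z| ≤ 1) (hH : ∀ z, |H z| ≤ 1)
    (hG' : ∀ z z', (∀ v, (∀ i ∈ B, P.η (f₀ i) ≠ v) → z v = z' v) → G z = G z')
    (hH' : ∀ z z', (∀ v, (∀ i ∈ R, P.ξ (e₀ i) ≠ v) → z v = z' v) → H z = H z') :
    |∑ z, G z * H z * P.chi z| * 2 ^ μ ≤ 2 ^ Fintype.card V := by
  classical
  obtain ⟨g⟩ : Nonempty (Fin (2 * μ + 1) ↪ R) :=
    Function.Embedding.nonempty_of_card_le (by simpa using hR)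
  obtain ⟨g'⟩ : Nonempty (Fin (2 * μ + 1) ↪ B) :=
    Function.Embedding.nonempty_of_card_le (by simpa using hB)
  have key := tri_disc P.hα P.hξ P.hη P.hξη P.hαξ P.hαη
    (e := fun s => e₀ (g s).1) (f := fun s => f₀ (g' s).1)
    (he₀.comp (Subtype.val_injective.comp g.injective))
    (hf₀.comp (Subtype.val_injective.comp g'.injective)) G H hG hH
    (fun z z' h => hG' z z' (fun v hv => h v (fun s => hv _ (g' s).2)))
    (fun z z' h => hH' z z' (fun v hv => h v (fun s => hv _ (g s).2)))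
  apply from_sq (by positivity)
  rw [sq_abs]
  exact key

/-- The positions of the bits of small degree. -/
def Pos.pos {n n' : ℕ} (P : Pos V n) (e₀ f₀ : Fin n' → Fin n) : Fin n' ⊕ Fin n' → V :=
  Sum.elim (fun i => P.ξ (e₀ i)) (fun i => P.η (f₀ i))

theorem Pos.pos_inj {n n' : ℕ} (P : Pos V n) {e₀ f₀ : Fin n' → Fin n}
    (he₀ : Function.Injective e₀) (hf₀ : Function.Injective f₀) :
    Function.Injective (P.pos e₀ f₀) := by
  rintro (i | i) (j | j) h
  · exact congrArg _ (he₀ (P.hξ h))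
  · exact absurd h (P.hξη _ _)
  · exact absurd h.symm (P.hξη _ _)
  · exact congrArg _ (hf₀ (P.hη h))

/-- The accepted inputs which satisfy the pieces of a valid family. -/
theorem valid_card [Fintype V] [DecidableEq V] {n n' : ℕ} (P : Pos V n) {U : Circ V}
    {e₀ f₀ : Fin n' → Fin n} (he₀ : Function.Injective e₀) (hf₀ : Function.Injective f₀)
    {d : U.G → Fin n' ⊕ Fin n' → ℕ}
    (hd : IsDeg U (P.pos e₀ f₀) d) {a κ m μ : ℕ} (hn : 1 ≤ n')
    (hμ : 2 ^ (2 * κ + 1) * (2 * μ + 1) ≤ n') (haκ : 2 * (κ * a) ≤ n')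
    {σ : ℝ} (hσ : |σ| = 1)
    (hU : ∀ z, U.Val z U.out → P.chi z = σ)
    {θ : Fin m → Option (Piece U)} (hθ : Valid U (P.pos e₀ f₀) d a κ θ)
    [DecidablePred (fun z : V → Bool => ∀ j P, θ j = some P → P.True z)] :
    ((univ.filter (fun z : V → Bool => ∀ j P, θ j = some P → P.True z)).card : ℝ) * 2 ^ μ ≤
      2 ^ Fintype.card V := by
  classical
  obtain ⟨c, hc⟩ := exists_color (vrs (P.pos e₀ f₀) d θ) hθ.cnt hθ.card haκ
  obtain ⟨R, hR⟩ : ∃ R, R = univ.filter (fun i : Fin n' =>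
    ∀ j, Sum.inl i ∈ vrs (P.pos e₀ f₀) d θ j → c j = true) := ⟨_, rfl⟩
  obtain ⟨B, hB⟩ : ∃ B, B = univ.filter (fun i : Fin n' =>
    ∀ j, Sum.inr i ∈ vrs (P.pos e₀ f₀) d θ j → c j = false) := ⟨_, rfl⟩
  rw [← hR, ← hB] at hc
  have hRn : R.card ≤ n' := by simpa using card_le_univ R
  have hBn : B.card ≤ n' := by simpa using card_le_univ B
  have hpow : 1 ≤ 2 ^ (2 * κ + 1) := Nat.one_le_two_pow
  have hR1 : 2 * μ + 1 ≤ R.card := by
    have h1 : n' * n' ≤ (2 ^ (2 * κ + 1) * R.card) * n' := by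
      calc n' * n' ≤ 2 ^ (2 * κ + 1) * (R.card * B.card) := hc
        _ = 2 ^ (2 * κ + 1) * R.card * B.card := by ring
        _ ≤ _ := Nat.mul_le_mul_left _ hBn
    have h2 := Nat.le_of_mul_le_mul_right h1 (by omega)
    exact Nat.le_of_mul_le_mul_left (hμ.trans h2) (by omega)
  have hB1 : 2 * μ + 1 ≤ B.card := by
    have h1 : n' * n' ≤ (2 ^ (2 * κ + 1) * B.card) * n' := by
      calc n' * n' ≤ 2 ^ (2 * κ + 1) * (R.card * B.card) := hc
        _ = 2 ^ (2 * κ + 1) * B.card * R.card := by ring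
        _ ≤ _ := Nat.mul_le_mul_left _ hRn
    have h2 := Nat.le_of_mul_le_mul_right h1 (by omega)
    exact Nat.le_of_mul_le_mul_left (hμ.trans h2) (by omega)
  obtain ⟨G, hG⟩ : ∃ G : (V → Bool) → ℝ, ∀ z, G z =
    if ∀ j P, θ j = some P → c j = true → P.True z then 1 else 0 := ⟨_, fun _ => rfl⟩
  obtain ⟨H, hH⟩ : ∃ H : (V → Bool) → ℝ, ∀ z, H z =
    if ∀ j P, θ j = some P → c j = false → P.True z then 1 else 0 := ⟨_, fun _ => rfl⟩
  have hvrs : ∀ j Q, θ j = some Q → vrs (P.pos e₀ f₀) d θ j = Q.vars (P.pos e₀ f₀) d := by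
    intro j Q hj
    unfold vrs
    rw [hj]; rfl
  have hinj := P.pos_inj he₀ hf₀
  have key := disc_sets P he₀ hf₀ R B hR1 hB1 G H
    (by intro z; rw [hG]; split_ifs <;> simp)
    (by intro z; rw [hH]; split_ifs <;> simp)
    (by
      intro z z' hz
      rw [hG, hG]
      have h3 : ∀ j Q, θ j = some Q → c j = true → (Q.True z ↔ Q.True z') := by
        intro j Q hj hcj
        have h4 : ∀ v, (∀ i, P.pos e₀ f₀ i ≠ v) → z v = z' v :=
          fun v hv => hz v (fun i _ => hv (.inr i))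
        have h5 : ∀ i ∈ Q.vars (P.pos e₀ f₀) d, z (P.pos e₀ f₀ i) = z' (P.pos e₀ f₀ i) := by
          rintro (i | i) hi
          · exact hz _ (fun i' _ h => P.hξη _ _ h.symm)
          · apply hz
            intro i' hi' h
            have h6 : i' = i := hf₀ (P.hη h)
            subst h6
            rw [hB, mem_filter] at hi'
            rw [hi'.2 j (by rw [hvrs j Q hj]; exact hi)] at hcj
            exact Bool.noConfusion hcj
        exact ⟨fun h => piece_dep' hinj hd h h4 h5, fun h => piece_dep' hinj hd h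
          (fun v hv => (h4 v hv).symm) (fun i hi => (h5 i hi).symm)⟩
      congr 1
      apply propext
      exact ⟨fun h j P hj hcj => (h3 j P hj hcj).1 (h j P hj hcj),
        fun h j P hj hcj => (h3 j P hj hcj).2 (h j P hj hcj)⟩)
    (by
      intro z z' hz
      rw [hH, hH]
      have h3 : ∀ j Q, θ j = some Q → c j = false → (Q.True z ↔ Q.True z') := by
        intro j Q hj hcj
        have h4 : ∀ v, (∀ i, P.pos e₀ f₀ i ≠ v) → z v = z' v :=
          fun v hv => hz v (fun i _ => hv (.inl i))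
        have h5 : ∀ i ∈ Q.vars (P.pos e₀ f₀) d, z (P.pos e₀ f₀ i) = z' (P.pos e₀ f₀ i) := by
          rintro (i | i) hi
          · apply hz
            intro i' hi' h
            have h6 : i' = i := he₀ (P.hξ h)
            subst h6
            rw [hR, mem_filter] at hi'
            rw [hi'.2 j (by rw [hvrs j Q hj]; exact hi)] at hcj
            exact Bool.noConfusion hcj
          · exact hz _ (fun i' _ h => P.hξη _ _ h)
        exact ⟨fun h => piece_dep' hinj hd h h4 h5, fun h => piece_dep' hinj hd h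
          (fun v hv => (h4 v hv).symm) (fun i hi => (h5 i hi).symm)⟩
      congr 1
      apply propext
      exact ⟨fun h j P hj hcj => (h3 j P hj hcj).1 (h j P hj hcj),
        fun h j P hj hcj => (h3 j P hj hcj).2 (h j P hj hcj)⟩)
  obtain ⟨N, hN⟩ : ∃ N : ℝ, N = ((univ.filter (fun z : V → Bool =>
      ∀ j P, θ j = some P → P.True z)).card : ℝ) := ⟨_, rfl⟩
  have e1 : ∑ z, G z * H z * P.chi z = σ * N := by
    rw [hN, card_filter]
    push_cast
    rw [mul_sum]
    refine sum_congr rfl (fun z _ => ?_)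
    rw [hG, hH]
    by_cases h3 : ∀ j P, θ j = some P → P.True z
    · rw [if_pos (fun j P hj _ => h3 j P hj), if_pos (fun j P hj _ => h3 j P hj),
        if_pos h3]
      have h4 : U.Val z U.out := by
        apply hθ.cl.val
        intro P hP
        obtain ⟨j, hj⟩ := mem_plst.1 hP
        exact h3 j P hj
      rw [hU _ h4]; ring
    · rw [if_neg h3]
      have h4 : ¬ ((∀ j P, θ j = some P → c j = true → P.True z) ∧
          ∀ j P, θ j = some P → c j = false → P.True z) := by
        rintro ⟨h5, h6⟩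
        apply h3
        intro j P hj
        cases hcj : c j with
        | true => exact h5 j P hj hcj
        | false => exact h6 j P hj hcj
      rw [not_and_or] at h4
      rcases h4 with h4 | h4
      · rw [if_neg h4]; ring
      · rw [if_neg h4]; ring
  rw [e1, abs_mul, hσ, one_mul] at key
  rw [← hN]
  exact (mul_le_mul_of_nonneg_right (le_abs_self N) (by positivity)).trans key

/-- Many inputs have a given sign. -/
theorem many [Fintype V] [DecidableEq V] {n μ : ℕ} (P : Pos V n) (hn : 2 * μ + 1 ≤ n)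
    (hμ : 1 ≤ μ) {σ : ℝ} (hσ : σ = 1 ∨ σ = -1)
    [DecidablePred (fun z : V → Bool => P.chi z = σ)] :
    (2 : ℝ) ^ Fintype.card V ≤ 4 * ((univ.filter (fun z : V → Bool => P.chi z = σ)).card : ℝ) := by
  classical
  have hσ1 : |σ| = 1 := by rcases hσ with h | h <;> rw [h] <;> norm_num
  have key := disc_sets P (e₀ := id) (f₀ := id) (fun _ _ h => h) (fun _ _ h => h) univ univ
    (by simpa using hn) (by simpa using hn) (fun _ => 1) (fun _ => 1) (by simp) (by simp)
    (by simp) (by simp)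
  simp only [one_mul] at key
  obtain ⟨S, hS⟩ : ∃ S : ℝ, S = ∑ z, P.chi z := ⟨_, rfl⟩
  rw [← hS] at key
  have h5 : |S| * 2 ≤ 2 ^ Fintype.card V := by
    refine le_trans ?_ key
    apply mul_le_mul_of_nonneg_left _ (abs_nonneg _)
    calc (2 : ℝ) = 2 ^ 1 := by norm_num
      _ ≤ 2 ^ μ := pow_le_pow_right₀ (by norm_num) hμ
  have h6 : ((univ.filter (fun z : V → Bool => P.chi z = σ)).card : ℝ) =
      (2 ^ Fintype.card V + σ * S) / 2 := by
    have h7 : ∀ z : V → Bool, (if P.chi z = σ then (1 : ℝ) else 0) =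
        (1 + σ * P.chi z) / 2 := by
      intro z
      have hsq : σ * σ = 1 := by rcases hσ with h' | h' <;> rw [h'] <;> norm_num
      split_ifs with hz
      · rw [hz, hsq]; norm_num
      · have h9 : P.chi z = -σ := by
          rcases eq_or_eq_neg_of_abs_eq (P.chi_abs z) with h | h <;>
            rcases hσ with h' | h'
          · exact absurd (h.trans h'.symm) hz
          · rw [h, h']; norm_num
          · rw [h, h']
          · exact absurd (h.trans h'.symm) hz
        rw [h9, mul_neg, hsq]; norm_num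
    rw [card_filter]
    push_cast
    simp_rw [h7]
    rw [← Finset.sum_div, sum_add_distrib, ← mul_sum, ← hS]
    simp
  have h8 : -(σ * S) ≤ |S| := by
    calc -(σ * S) ≤ |σ * S| := neg_le_abs _
      _ = |S| := by rw [abs_mul, hσ1, one_mul]
  rw [h6]
  linarith

/-- The number of the inputs which are accepted by a circuit of small formal degree. -/
theorem accepted [Fintype V] [DecidableEq V] {n n' : ℕ} (P : Pos V n) {U : Circ V}
    {e₀ f₀ : Fin n' → Fin n} (he₀ : Function.Injective e₀) (hf₀ : Function.Injective f₀)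
    {d : U.G → Fin n' ⊕ Fin n' → ℕ}
    (hd : IsDeg U (P.pos e₀ f₀) d) {a κ m μ : ℕ} (hn : 1 ≤ n')
    (hμ : 2 ^ (2 * κ + 1) * (2 * μ + 1) ≤ n') (ha : 1 ≤ a) (haκ : 2 * (κ * a) ≤ n')
    (hκ : ∀ i, d U.out i ≤ κ) (hm : a + 4 * wt d U.out ≤ a * m)
    {σ : ℝ} (hσ : |σ| = 1)
    (hU : ∀ z, U.Val z U.out → P.chi z = σ) [DecidablePred (fun z : V → Bool => U.Val z U.out)] :
    ((univ.filter (fun z : V → Bool => U.Val z U.out)).card : ℝ) * 2 ^ μ ≤
      (Fintype.card (Option (Piece U)) : ℝ) ^ m * 2 ^ Fintype.card V := by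
  classical
  obtain ⟨S, hS⟩ : ∃ S : (Fin m → Option (Piece U)) → Finset (V → Bool),
    ∀ θ, S θ = if Valid U (P.pos e₀ f₀) d a κ θ then univ.filter (fun z =>
      ∀ j P, θ j = some P → P.True z) else ∅ := ⟨_, fun _ => rfl⟩
  have h2 : (univ.filter (fun z : V → Bool => U.Val z U.out)) ⊆ univ.biUnion S := by
    intro z hz
    rw [mem_filter] at hz
    obtain ⟨θ, h4, h5⟩ := exists_valid hd ha (P.pos_inj he₀ hf₀) hz.2 hκ hm
    rw [mem_biUnion]
    refine ⟨θ, mem_univ _, ?_⟩
    rw [hS, if_pos h4, mem_filter]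
    exact ⟨mem_univ _, h5⟩
  have h3 : ∀ θ, ((S θ).card : ℝ) * 2 ^ μ ≤ 2 ^ Fintype.card V := by
    intro θ
    rw [hS]
    by_cases hθ : Valid U (P.pos e₀ f₀) d a κ θ
    · rw [if_pos hθ]
      exact valid_card P he₀ hf₀ hd hn hμ haκ hσ hU hθ
    · rw [if_neg hθ]
      simp
  calc _ ≤ (∑ θ, ((S θ).card : ℝ)) * 2 ^ μ := by
        apply mul_le_mul_of_nonneg_right _ (by positivity)
        exact_mod_cast (card_le_card h2).trans card_biUnion_le
    _ = ∑ θ, ((S θ).card : ℝ) * 2 ^ μ := by rw [sum_mul]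
    _ ≤ ∑ _θ : Fin m → Option (Piece U), (2 : ℝ) ^ Fintype.card V :=
        sum_le_sum (fun θ _ => h3 θ)
    _ = _ := by
        rw [sum_const, card_univ, nsmul_eq_mul, Fintype.card_fun, Fintype.card_fin]
        push_cast
        ring

end Pool.Agent.J6H29.FE
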