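import Pool.Agent.J6H29.FE.Lang

/-!
# Circuits of small formal degree: the final bound
-/

set_option autoImplicit false

open Finset

namespace Pool.Agent.J6H29.FE

open Pool.Agent.W896.RK Pool.Agent.W896.HP

theorem piece_card {V : Type} (U : Circ V) : Fintype.card (Option (Piece U)) ≤
    2 ^ (2 * (Nat.log 2 (Fintype.card U.G) + 1)) := by
  have h1 : Fintype.card U.G < 2 ^ (Nat.log 2 (Fintype.card U.G) + 1) :=
    Nat.lt_pow_succ_log_self (by norm_num) _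
  rw [Fintype.card_option, Fintype.card_prod, Fintype.card_option, mul_comm 2, pow_mul]
  nlinarith

/-- Indices of small degree. -/
theorem low {n N k κ : ℕ} (hκ : 14 * (k + 1) ≤ κ) (hN : N ≤ 7 * n) (D : Fin n → ℕ)
    (hD : ∑ i, D i ≤ k * N) : ∃ e : Fin (n / 2) → Fin n, Function.Injective e ∧
      ∀ i, D (e i) ≤ κ := by
  classical
  have h1 : (univ.filter (fun j => ¬ D j ≤ κ)).card * (κ + 1) ≤ k * N := by
    refine le_trans ?_ hD
    rw [← smul_eq_mul, ← sum_const]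
    calc ∑ _j ∈ univ.filter (fun j => ¬ D j ≤ κ), (κ + 1) ≤
        ∑ j ∈ univ.filter (fun j => ¬ D j ≤ κ), D j := by
          apply sum_le_sum
          intro j hj
          have := (mem_filter.1 hj).2
          omega
      _ ≤ _ := sum_le_sum_of_subset (subset_univ _)
  have h2 : (univ.filter (fun j => D j ≤ κ)).card +
      (univ.filter (fun j => ¬ D j ≤ κ)).card = n := by
    rw [card_filter_add_card_filter_not, card_univ, Fintype.card_fin]
  obtain ⟨X, hX⟩ : ∃ X, X = (univ.filter (fun j => ¬ D j ≤ κ)).card := ⟨_, rfl⟩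
  obtain ⟨Y, hY⟩ : ∃ Y, Y = (univ.filter (fun j => D j ≤ κ)).card := ⟨_, rfl⟩
  rw [← hX] at h1 h2
  rw [← hY] at h2
  have h3 : 2 * X ≤ n := by
    have h4 : (2 * X) * (7 * (k + 1)) ≤ n * (7 * (k + 1)) := by
      calc (2 * X) * (7 * (k + 1)) = X * (14 * (k + 1)) := by ring
        _ ≤ X * (κ + 1) := Nat.mul_le_mul_left _ (by omega)
        _ ≤ k * N := h1
        _ ≤ k * (7 * n) := Nat.mul_le_mul_left _ hN
        _ ≤ n * (7 * (k + 1)) := by nlinarith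
    exact Nat.le_of_mul_le_mul_right h4 (by omega)
  have h4 : Fintype.card (Fin (n / 2)) ≤ Fintype.card (univ.filter (fun j => D j ≤ κ)) := by
    rw [Fintype.card_fin, Fintype.card_coe, ← hY]
    omega
  obtain ⟨g⟩ := Function.Embedding.nonempty_of_card_le h4
  exact ⟨fun i => (g i).1, Subtype.val_injective.comp g.injective,
    fun i => (mem_filter.1 (g i).2).2⟩

/-- The bits of the second half of the input. -/
abbrev Half (N : ℕ) : Type := {j : Fin N // N / 2 ≤ j.val}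

/-- The number of the inputs which are accepted by a circuit of small formal degree. -/
theorem single {N k κ m μ : ℕ} (hκ : κ = 14 * (k + 1)) (hm : m = 32 * κ ^ 2 + 1)
    (hμ : μ = N / 4 / 2 / 2 ^ (2 * κ + 3)) (hμ1 : 1 ≤ μ) {σ : ℝ} (hσ : |σ| = 1)
    (U : Circ (Fin N)) (hU : ∀ z, U.Val z U.out → (pos N).chi z = σ)
    (d : U.G → Half N → ℕ) (hd : IsDeg U (fun j : Half N => j.val) d)
    (hk : ∑ j, d U.out j ≤ k * N) [DecidablePred (fun z : Fin N → Bool => U.Val z U.out)] :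
    ((univ.filter (fun z : Fin N → Bool => U.Val z U.out)).card : ℝ) * 2 ^ μ ≤
      (2 ^ (2 * (Nat.log 2 (Fintype.card U.G) + 1))) ^ m * 2 ^ N := by
  classical
  obtain ⟨n, hn⟩ : ∃ n, n = N / 4 := ⟨_, rfl⟩
  obtain ⟨n', hn'⟩ : ∃ n', n' = n / 2 := ⟨_, rfl⟩
  have hμ' : μ = n' / 2 ^ (2 * κ + 3) := by rw [hμ, hn', hn]
  have hn'μ : 2 ^ (2 * κ + 3) * μ ≤ n' := by rw [hμ']; exact Nat.mul_div_le _ _
  have hpow : 2 * κ ≤ 2 ^ (2 * κ + 3) := by
    have : 2 * κ + 3 < 2 ^ (2 * κ + 3) := Nat.lt_two_pow_self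
    omega
  have hn'κ : 2 ^ (2 * κ + 3) ≤ n' := le_trans (Nat.le_mul_of_pos_right _ hμ1) hn'μ
  have hκ1 : 1 ≤ κ := by omega
  have hn'1 : 1 ≤ n' := by omega
  have hn1 : 2 ≤ n := by omega
  have hN7 : N ≤ 7 * n := by omega
  subst hn
  obtain ⟨X, hX⟩ : ∃ X : Fin (N / 4) → Half N, ∀ i, (X i).val = (pos N).ξ i :=
    ⟨fun i => ⟨(pos N).ξ i, Nat.le_add_right _ _⟩, fun _ => rfl⟩
  obtain ⟨Y, hY⟩ : ∃ Y : Fin (N / 4) → Half N, ∀ i, (Y i).val = (pos N).η i :=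
    ⟨fun i => ⟨(pos N).η i, (Nat.le_add_right _ _).trans (Nat.le_add_right _ _)⟩,
      fun _ => rfl⟩
  have hXinj : Function.Injective X := fun i j h => (pos N).hξ (by rw [← hX, ← hX, h])
  have hYinj : Function.Injective Y := fun i j h => (pos N).hη (by rw [← hY, ← hY, h])
  obtain ⟨e₀, he₀, hel⟩ := low (k := k) (κ := κ) (by omega) hN7 (fun i => d U.out (X i)) (by
    refine le_trans ?_ hk
    rw [← sum_image (s := univ) (g := X) (f := fun j => d U.out j) (fun i _ j _ h => hXinj h)]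
    exact sum_le_sum_of_subset (subset_univ _))
  obtain ⟨f₀, hf₀, hfl⟩ := low (k := k) (κ := κ) (by omega) hN7 (fun i => d U.out (Y i)) (by
    refine le_trans ?_ hk
    rw [← sum_image (s := univ) (g := Y) (f := fun j => d U.out j) (fun i _ j _ h => hYinj h)]
    exact sum_le_sum_of_subset (subset_univ _))
  subst hn'
  obtain ⟨n', hn'⟩ : ∃ n', n' = N / 4 / 2 := ⟨_, rfl⟩
  rw [← hn'] at hμ' hn'μ hn'κ hn'1
  obtain ⟨a, ha⟩ : ∃ a, a = n' / (2 * κ) := ⟨_, rfl⟩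
  have ha1 : 1 ≤ a := by
    rw [ha]
    exact (Nat.one_le_div_iff (by omega)).2 (hpow.trans hn'κ)
  have haκ : 2 * κ * a ≤ n' := by rw [ha]; exact Nat.mul_div_le _ _
  have hna : n' < 2 * κ * (a + 1) := by rw [ha]; exact Nat.lt_mul_div_succ n' (by omega)
  obtain ⟨W, hW⟩ : ∃ W : Fin (N / 4 / 2) ⊕ Fin (N / 4 / 2) → Half N,
    W = Sum.elim (fun i => X (e₀ i)) (fun i => Y (f₀ i)) := ⟨_, rfl⟩
  have hWp : ∀ i, (W i).val = (pos N).pos e₀ f₀ i := by
    rintro (i | i)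
    · rw [hW]; exact hX _
    · rw [hW]; exact hY _
  have hWκ : ∀ i, d U.out (W i) ≤ κ := by
    rintro (i | i)
    · rw [hW]; exact hel i
    · rw [hW]; exact hfl i
  have hwt : wt (fun g i => d g (W i)) U.out ≤ 2 * n' * κ := by
    unfold wt
    calc ∑ i, d U.out (W i) ≤ ∑ _i : Fin (N / 4 / 2) ⊕ Fin (N / 4 / 2), κ :=
          sum_le_sum (fun i _ => hWκ i)
      _ = 2 * n' * κ := by
          rw [sum_const, card_univ, Fintype.card_sum, Fintype.card_fin, smul_eq_mul, hn']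
          ring
  have key := accepted (m := m) (μ := μ) (a := a) (pos N) he₀ hf₀ (d := fun g i => d g (W i))
    ⟨fun g v b e i hi => hd.1 g v b e (W i) (by rw [← hi]; exact hWp i),
      fun g a' b' e i => hd.2.1 g a' b' e (W i), fun g S a' e ha' i => hd.2.2 g S a' e ha' (W i)⟩
    (by rw [← hn']; exact hn'1) (by
      rw [← hn']
      refine le_trans ?_ hn'μ
      calc 2 ^ (2 * κ + 1) * (2 * μ + 1) ≤ 2 ^ (2 * κ + 1) * (4 * μ) :=
            Nat.mul_le_mul_left _ (by omega)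
        _ = 2 ^ (2 * κ + 3) * μ := by ring) ha1
    (by rw [← hn']; linarith) hWκ (by
      have h1 : n' ≤ 4 * κ * a := by nlinarith
      calc a + 4 * wt (fun g i => d g (W i)) U.out ≤ a + 4 * (2 * n' * κ) := by omega
        _ = a + 8 * κ * n' := by ring
        _ ≤ a + 8 * κ * (4 * κ * a) := by gcongr
        _ = a * m := by rw [hm]; ring) hσ hU
  rw [Fintype.card_fin] at key
  refine key.trans ?_
  apply mul_le_mul_of_nonneg_right _ (by positivity)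
  exact_mod_cast Nat.pow_le_pow_left (piece_card U) m

/-- Arithmetic. -/
theorem arith {N k κ m μ lg δ : ℕ} (hκ : κ = 14 * (k + 1)) (hm : m = 32 * κ ^ 2 + 1)
    (hμ : μ = N / 4 / 2 / 2 ^ (2 * κ + 3)) (h : μ ≤ 2 + δ + 2 * (lg + 1) * m) :
    N ≤ 2 ^ (48 * (k + 1)) * (δ + lg + 1) := by
  have h1 : N / 4 / 2 < 2 ^ (2 * κ + 3) * (μ + 1) := by
    rw [hμ]; exact Nat.lt_mul_div_succ _ (by positivity)
  have h2 : N ≤ 2 ^ (2 * κ + 6) * (μ + 1) := by
    have h3 : 2 ^ (2 * κ + 6) * (μ + 1) = 8 * (2 ^ (2 * κ + 3) * (μ + 1)) := by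
      rw [show 2 * κ + 6 = (2 * κ + 3) + 3 by ring, pow_add _ (2 * κ + 3)]; ring
    omega
  have h3 : μ + 1 ≤ (2 * m + 3) * (δ + lg + 1) := by nlinarith
  have h4 : 2 * m + 3 = 12544 * (k + 1) ^ 2 + 5 := by rw [hm, hκ]; ring
  have h5 : (k + 1) ^ 2 ≤ 4 ^ k := by
    have : k + 1 ≤ 2 ^ k := Nat.lt_two_pow_self
    calc (k + 1) ^ 2 ≤ (2 ^ k) ^ 2 := Nat.pow_le_pow_left this 2
      _ = 4 ^ k := by rw [← pow_mul, mul_comm k 2, pow_mul]; norm_num
  have h6 : 2 * m + 3 ≤ 2 ^ (2 * k + 14) := by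
    have h7 : 2 ^ (2 * k + 14) = 16384 * 4 ^ k := by
      rw [pow_add, pow_mul]; norm_num; ring
    have h8 : 1 ≤ 4 ^ k := Nat.one_le_pow _ _ (by norm_num)
    omega
  calc N ≤ 2 ^ (2 * κ + 6) * (μ + 1) := h2
    _ ≤ 2 ^ (2 * κ + 6) * (2 ^ (2 * k + 14) * (δ + lg + 1)) := by gcongr; exact h3.trans (by gcongr)
    _ = 2 ^ (30 * k + 48) * (δ + lg + 1) := by
        rw [← mul_assoc, ← pow_add, hκ]; congr 2; ring
    _ ≤ _ := Nat.mul_le_mul_right _ (Nat.pow_le_pow_right (by norm_num) (by omega))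

/-- The words in `L`, resp. the other ones, by the sign of the form. -/
theorem exists_sign (N : ℕ) (s : Bool) : ∃ σ : ℝ, (σ = 1 ∨ σ = -1) ∧
    ∀ z : Fin N → Bool, (pos N).chi z = σ ↔ (List.ofFn z ∈ L ↔ s = true) := by
  classical
  cases s with
  | true =>
    refine ⟨-1, Or.inr rfl, fun z => ?_⟩
    rw [chi_eq]
    by_cases h : List.ofFn z ∈ L
    · simp [h]
    · simp only [h, if_false, iff_true]
      norm_num
  | false =>
    refine ⟨1, Or.inl rfl, fun z => ?_⟩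
    rw [chi_eq]
    by_cases h : List.ofFn z ∈ L
    · simp only [h, if_true, Bool.false_eq_true, iff_false]
      norm_num
    · simp [h]

/-- **The bound on average.** -/
theorem final_avg (N k δ : ℕ) (s : Bool) (U : Circ (Fin N))
    (hU : ∀ z, U.Val z U.out → (List.ofFn z ∈ L ↔ s = true))
    (hδ : 2 ^ N ≤ 2 ^ δ * Nat.card {z : Fin N → Bool // U.Val z U.out})
    (d : U.G → Half N → ℕ) (hd : IsDeg U (fun j : Half N => j.val) d)
    (hk : ∑ j, d U.out j ≤ k * N) :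
    N ≤ 2 ^ (48 * (k + 1)) * (δ + Nat.log 2 (Fintype.card U.G) + 1) := by
  classical
  obtain ⟨κ, hκ⟩ : ∃ κ, κ = 14 * (k + 1) := ⟨_, rfl⟩
  obtain ⟨m, hm⟩ : ∃ m, m = 32 * κ ^ 2 + 1 := ⟨_, rfl⟩
  obtain ⟨μ, hμ⟩ : ∃ μ, μ = N / 4 / 2 / 2 ^ (2 * κ + 3) := ⟨_, rfl⟩
  refine arith hκ hm hμ ?_
  rcases Nat.eq_zero_or_pos μ with h0 | hμ1
  · rw [h0]; exact Nat.zero_le _
  obtain ⟨σ, hσ, hσs⟩ := exists_sign N s
  have hσ1 : |σ| = 1 := by rcases hσ with h | h <;> rw [h] <;> norm_num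
  have h3 := single hκ hm hμ hμ1 hσ1 U (fun z hz => (hσs z).2 (hU z hz)) d hd hk
  rw [Nat.card_eq_fintype_card, Fintype.card_subtype] at hδ
  obtain ⟨A, hA⟩ : ∃ A, A = (univ.filter (fun z : Fin N → Bool => U.Val z U.out)).card := ⟨_, rfl⟩
  rw [← hA] at h3 hδ
  obtain ⟨lg, hlg⟩ : ∃ lg, lg = Nat.log 2 (Fintype.card U.G) := ⟨_, rfl⟩
  rw [← hlg] at h3 ⊢
  have h4 : A * 2 ^ μ ≤ (2 ^ (2 * (lg + 1))) ^ m * 2 ^ N := by exact_mod_cast h3
  have h5 : 2 ^ N * 2 ^ μ ≤ 2 ^ N * 2 ^ (δ + 2 * (lg + 1) * m) := by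
    calc 2 ^ N * 2 ^ μ ≤ (2 ^ δ * A) * 2 ^ μ := Nat.mul_le_mul_right _ hδ
      _ = 2 ^ δ * (A * 2 ^ μ) := by ring
      _ ≤ 2 ^ δ * ((2 ^ (2 * (lg + 1))) ^ m * 2 ^ N) := Nat.mul_le_mul_left _ h4
      _ = _ := by rw [← pow_mul, pow_add]; ring
  have h6 := Nat.le_of_mul_le_mul_left h5 (by positivity)
  have h7 := (Nat.pow_le_pow_iff_right (by norm_num : 1 < 2)).1 h6
  omega

/-- **The bound for a circuit which computes the function.** -/
theorem final_one (N k : ℕ) (s : Bool) (U : Circ (Fin N))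
    (hU : ∀ z, U.Val z U.out ↔ (List.ofFn z ∈ L ↔ s = true))
    (d : U.G → Half N → ℕ) (hd : IsDeg U (fun j : Half N => j.val) d)
    (hk : ∑ j, d U.out j ≤ k * N) :
    N ≤ 2 ^ (48 * (k + 1)) * (2 + Nat.log 2 (Fintype.card U.G) + 1) := by
  classical
  obtain ⟨κ, hκ⟩ : ∃ κ, κ = 14 * (k + 1) := ⟨_, rfl⟩
  obtain ⟨μ, hμ⟩ : ∃ μ, μ = N / 4 / 2 / 2 ^ (2 * κ + 3) := ⟨_, rfl⟩
  rcases Nat.eq_zero_or_pos μ with h0 | hμ1
  · refine arith hκ rfl hμ ?_
    rw [h0]; exact Nat.zero_le _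
  obtain ⟨σ, hσ, hσs⟩ := exists_sign N s
  have hmany := many (μ := μ) (pos N) (by
    have h1 : 2 ^ (2 * κ + 3) * μ ≤ N / 4 / 2 := by rw [hμ]; exact Nat.mul_div_le _ _
    have h2 : 8 ≤ 2 ^ (2 * κ + 3) := by
      calc 8 = 2 ^ 3 := by norm_num
        _ ≤ _ := Nat.pow_le_pow_right (by norm_num) (by omega)
    have h3 : 8 * μ ≤ 2 ^ (2 * κ + 3) * μ := Nat.mul_le_mul_right _ h2
    omega) hμ1 hσ
  rw [Fintype.card_fin] at hmany
  refine final_avg N k 2 s U (fun z hz => (hU z).1 hz) ?_ d hd hk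
  rw [Nat.card_eq_fintype_card, Fintype.card_subtype]
  have h1 : (univ.filter (fun z : Fin N → Bool => (pos N).chi z = σ)) =
      univ.filter (fun z : Fin N → Bool => U.Val z U.out) :=
    filter_congr (fun z _ => (hσs z).trans (hU z).symm)
  rw [h1] at hmany
  exact_mod_cast hmany

/-- From logarithms to powers. -/
theorem from_log {N G D : ℕ} (hD : 0 < D) (hG : G ≠ 0) (hr : N ≤ D * (2 + Nat.log 2 G + 1))
    (hN : 6 * D ≤ N) : (2 : ℝ) ^ ((1 / (2 * D) : ℝ) * N) ≤ G := by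
  have hDR : (0 : ℝ) < D := by exact_mod_cast hD
  have h1 : 2 ^ Nat.log 2 G ≤ G := Nat.pow_log_le_self 2 hG
  have h2 : (1 / (2 * D) : ℝ) * N ≤ (Nat.log 2 G : ℕ) := by
    have h3 : (N : ℝ) ≤ D * (2 + (Nat.log 2 G : ℕ) + 1) := by exact_mod_cast hr
    have h4 : (6 : ℝ) * D ≤ N := by exact_mod_cast hN
    rw [div_mul_eq_mul_div, one_mul, div_le_iff₀ (by positivity)]
    nlinarith
  calc (2 : ℝ) ^ ((1 / (2 * D) : ℝ) * N) ≤ (2 : ℝ) ^ ((Nat.log 2 G : ℕ) : ℝ) :=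
        Real.rpow_le_rpow_of_exponent_le (by norm_num) h2
    _ = (2 : ℝ) ^ (Nat.log 2 G) := Real.rpow_natCast _ _
    _ ≤ G := by exact_mod_cast h1

/-- The bound in the form `2 ^ (ε N)`. -/
theorem final_eps (k : ℕ) : ∃ ε : ℝ, 0 < ε ∧ ∃ N₀ : ℕ, ∀ N ≥ N₀, ∀ (s : Bool)
    (U : Circ (Fin N)) (d : U.G → Half N → ℕ),
    IsDeg U (fun j : Half N => j.val) d → ∑ j, d U.out j ≤ k * N →
    (∀ z, U.Val z U.out ↔ (List.ofFn z ∈ L ↔ s = true)) →
    (2 : ℝ) ^ (ε * N) ≤ Fintype.card U.G := by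
  have hD : 0 < 2 ^ (48 * (k + 1)) := Nat.pow_pos (by norm_num)
  have h := final_one
  obtain ⟨D, hDe⟩ : ∃ D : ℕ, D = 2 ^ (48 * (k + 1)) := ⟨_, rfl⟩
  have h' : ∀ (N : ℕ) (s : Bool) (U : Circ (Fin N))
    (hU : ∀ z, U.Val z U.out ↔ (List.ofFn z ∈ L ↔ s = true))
    (d : U.G → Half N → ℕ) (hd : IsDeg U (fun j : Half N => j.val) d)
    (hk : ∑ j, d U.out j ≤ k * N), N ≤ D * (2 + Nat.log 2 (Fintype.card U.G) + 1) := by
    intro N s U hU d hd hk
    rw [hDe]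
    exact h N k s U hU d hd hk
  rw [← hDe] at hD
  clear h
  clear hDe
  have hDR : (0 : ℝ) < D := by exact_mod_cast hD
  refine ⟨1 / (2 * D), div_pos one_pos (mul_pos two_pos hDR), 6 * D, ?_⟩
  intro N hN s U d hd hk hU
  have hG : Fintype.card U.G ≠ 0 := by
    have : 0 < Fintype.card U.G := Fintype.card_pos_iff.2 ⟨U.out⟩
    omega
  exact from_log hD hG (h' N s U hU d hd hk) hN

end Pool.Agent.J6H29.FE
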