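import Pool.Agent.NPC.Dec
import Pool.Agent.J6H29.FE.Core

/-!
# The language of the trilinear form
-/

set_option autoImplicit false

open Finset

namespace Pool.Agent.J6H29.FE

open Pool.Agent.W896.RK

/-- The number of the pairs `(i, j)` of numbers below a quarter of the length of the word such that
the letters with the numbers `i + j`, `h + i` and `h + n + j` are all ones, `h` being half of the
length and `n` a quarter of it (rounded down). -/
def cnt (w : List Bool) : ℕ :=
  ((List.range (w.length / 4)).flatMap (fun i => (List.range (w.length / 4)).filter (fun j =>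
    w.getD (i + j) false && (w.getD (w.length / 2 + i) false &&
      w.getD (w.length / 2 + w.length / 4 + j) false)))).length

/-- The words for which this number is odd. -/
def L : Set (List Bool) := {w | cnt w % 2 = 1}

/-- The positions. -/
def pos (N : ℕ) : Pos (Fin N) (N / 4) where
  α i j := ⟨i.val + j.val, by have := i.2; have := j.2; omega⟩
  ξ i := ⟨N / 2 + i.val, by have := i.2; omega⟩
  η j := ⟨N / 2 + N / 4 + j.val, by have := j.2; omega⟩
  hα := by
    intro i j i' j' h
    exact congrArg Fin.val h
  hξ := by
    intro i j h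
    have := congrArg Fin.val h
    simp only at this
    exact Fin.ext (by omega)
  hη := by
    intro i j h
    have := congrArg Fin.val h
    simp only at this
    exact Fin.ext (by omega)
  hξη := by
    intro i j h
    have := congrArg Fin.val h
    simp only at this
    have := i.2
    omega
  hαξ := by
    intro i j k h
    have := congrArg Fin.val h
    simp only at this
    have := i.2; have := j.2
    omega
  hαη := by
    intro i j k h
    have := congrArg Fin.val h
    simp only at this
    have := i.2; have := j.2
    omega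

theorem getD_ofFn {N : ℕ} (z : Fin N → Bool) (i : ℕ) (hi : i < N) :
    (List.ofFn z).getD i false = z ⟨i, hi⟩ := by
  rw [List.getD_eq_getElem?_getD, List.getElem?_ofFn, dif_pos hi]
  rfl

open Classical in
theorem cnt_ofFn {N : ℕ} (z : Fin N → Bool) :
    cnt (List.ofFn z) = (univ.filter (fun p : Fin (N / 4) × Fin (N / 4) =>
      mat (pos N).α z p.1 p.2 ∧ z ((pos N).ξ p.1) = true ∧ z ((pos N).η p.2) = true)).card := by
  classical
  unfold cnt
  rw [List.length_ofFn, List.length_flatMap]
  have h1 : ∀ f : ℕ → ℕ, ((List.range (N / 4)).map f).sum = ∑ i : Fin (N / 4), f i.val := by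
    intro f
    rw [← Finset.sum_range (fun i => f i)]
    rfl
  rw [h1]
  have h2 : ∀ q : ℕ → Bool, ((List.range (N / 4)).filter q).length =
      (univ.filter (fun j : Fin (N / 4) => q j.val = true)).card := by
    intro q
    rw [card_filter, ← Finset.sum_range (fun i => if q i = true then 1 else 0), ← card_filter]
    change _ = Multiset.card (Multiset.filter (fun j => q j = true) (Multiset.range (N / 4)))
    change _ = (List.filter (fun j => decide (q j = true)) (List.range (N / 4))).length
    simp
  rw [card_filter, Fintype.sum_prod_type]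
  refine sum_congr rfl (fun i _ => ?_)
  rw [h2, card_filter]
  refine sum_congr rfl (fun j _ => ?_)
  have hi := i.2
  have hj := j.2
  rw [getD_ofFn z (i.val + j.val) (by omega), getD_ofFn z (N / 2 + i.val) (by omega),
    getD_ofFn z (N / 2 + N / 4 + j.val) (by omega)]
  simp only [Bool.and_eq_true, mat, pos]
  split_ifs <;> rfl

/-- The sign of the form. -/
theorem chi_eq {N : ℕ} (z : Fin N → Bool) [Decidable (List.ofFn z ∈ L)] :
    (pos N).chi z = if List.ofFn z ∈ L then -1 else 1 := by
  classical
  unfold Pos.chi
  rw [bil_eq]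
  have h1 : List.ofFn z ∈ L ↔ Odd (univ.filter (fun p : Fin (N / 4) × Fin (N / 4) =>
      mat (pos N).α z p.1 p.2 ∧ z ((pos N).ξ p.1) = true ∧ z ((pos N).η p.2) = true)).card := by
    change cnt (List.ofFn z) % 2 = 1 ↔ _
    rw [cnt_ofFn, Nat.odd_iff]
  by_cases h : List.ofFn z ∈ L
  · rw [if_pos h, if_pos (h1.1 h)]
  · rw [if_neg h, if_neg (fun h' => h (h1.2 h'))]

open Pool.Agent.NPC

/-- The language is in `P`. -/
theorem inP_L : InP L := by
  refine ⟨fun w => [decide (cnt w % 2 = 1)], polyTime_of_poly ?_, ?_⟩
  · refine NPC.Poly.decide_eq (NPC.Poly.mod (NPC.Poly.length ?_) (NPC.Poly.const 2))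
      (NPC.Poly.const 1)
    have hq : NPC.Poly (fun w : List Bool => w.length / 4) :=
      NPC.Poly.div (NPC.Poly.length NPC.Poly.id) (NPC.Poly.const 4)
    have hh : NPC.Poly (fun w : List Bool => w.length / 2) :=
      NPC.Poly.div (NPC.Poly.length NPC.Poly.id) (NPC.Poly.const 2)
    have hr : NPC.Poly (fun w : List Bool => List.range (w.length / 4)) :=
      UPoly.range (UPoly.of_le hq (UPoly.length NPC.Poly.id) (fun a => Nat.div_le_self _ _))
    refine NPC.Poly.flatMap hr ?_
    refine NPC.Poly.filter (hr.comp (NPC.Poly.fst NPC.Poly.id)) ?_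
    have hw : NPC.Poly (fun x : (List Bool × ℕ) × ℕ => x.1.1) :=
      NPC.Poly.fst (NPC.Poly.fst NPC.Poly.id)
    have hi : NPC.Poly (fun x : (List Bool × ℕ) × ℕ => x.1.2) :=
      NPC.Poly.snd (NPC.Poly.fst NPC.Poly.id)
    have hj : NPC.Poly (fun x : (List Bool × ℕ) × ℕ => x.2) := NPC.Poly.snd NPC.Poly.id
    exact NPC.Poly.and (NPC.Poly.getD hw (NPC.Poly.add hi hj) (NPC.Poly.const false))
      (NPC.Poly.and (NPC.Poly.getD hw (NPC.Poly.add (hh.comp hw) hi) (NPC.Poly.const false))
      (NPC.Poly.getD hw (NPC.Poly.add (NPC.Poly.add (hh.comp hw) (hq.comp hw)) hj)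
        (NPC.Poly.const false)))
  · intro x
    change cnt x % 2 = 1 ↔ _
    simp

end Pool.Agent.J6H29.FE
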